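import Mathlib
import Pool.Agent.H795R4.BU.Final

/-!
# Three generators of prime power orders decide local finiteness, in a single group

Let `n = p ^ a * q ^ b`, where `p ≠ q` are primes and `p ^ a`, `q ^ b` are in `𝓛` (this is a condition
only if they are larger than `4`, so there is none for `n = 12`), and let `G` be a group satisfying
`g ^ n = 1`. If there is a bound `N` such that every `p`-element `x`, every `q`-element `y` and
every `p`-element or `q`-element `z` of `G` generate a finite subgroup of order at most `N`, then `G`
is locally finite.

For relatively free groups this says: `n ∈ 𝓛` if and only if the two groups generated by three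
elements of orders dividing `p ^ a, q ^ b, p ^ a` and `p ^ a, q ^ b, q ^ b` which are free subject to
`g ^ n = 1` are finite (for `n = 12`: orders `4, 3, 4` and `4, 3, 3`). The starting file
`ThreeGenerators` has the finiteness of the whole group `B_{3,n}` instead, and nothing about
individual groups.

The proof follows the scheme of the starting files `H32BU` (project of the first round; the
theorems of Burnside, Sanov, Schmidt and Burnside's `p ^ a q ^ b` theorem are proved there). The
new point is that the nilpotent length of a finite group of order `p ^ c q ^ d` is detected on the
subgroups generated by one `p`-element and one `q`-element (`two_pq`). This comes from a one-sided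
version (`pair'`) of the lemma on changing generators by the elements of an elementary abelian
normal `r`-subgroup `V`: one changes only the generator which is an `r`-element, which stays an
`r`-element; if this never increases the nilpotent length, the other generator acts trivially on
`V / C_V(B)`, where `B` is the last nontrivial term of the lower nilpotent series, so that the group
acts on `V / C_V(B)` as a cyclic group, and `B` acts trivially on it.
-/

set_option autoImplicit false

namespace Pool.Agent.Results.MP_544bd1_al.CoprimeTriples

universe u

/-- Let `p ≠ q` be primes such that, if `p ^ a > 4`, all groups satisfying `x ^ (p ^ a) = 1` are locally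
finite, and similarly for `q ^ b`. Let `G` be a group satisfying `g ^ (p ^ a * q ^ b) = 1` and `N` a
number such that all `x, y, z` in `G` with `x ^ (p ^ a) = 1`, `y ^ (q ^ b) = 1` and `z ^ (p ^ a) = 1` or
`z ^ (q ^ b) = 1` generate a finite subgroup of order at most `N`. Then `G` is locally finite. -/
theorem result (p q a b : ℕ) (hp : p.Prime) (hq : q.Prime) (hpq : p ≠ q)
    (hpa : 4 < p ^ a → ∀ (H : Type u) [Group H], (∀ x : H, x ^ p ^ a = 1) →
      ∀ S : Set H, S.Finite → Finite (Subgroup.closure S))
    (hqb : 4 < q ^ b → ∀ (H : Type u) [Group H], (∀ x : H, x ^ q ^ b = 1) →
      ∀ S : Set H, S.Finite → Finite (Subgroup.closure S))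
    (G : Type u) [Group G] (hG : ∀ g : G, g ^ (p ^ a * q ^ b) = 1) (N : ℕ)
    (h : ∀ x y z : G, x ^ p ^ a = 1 → y ^ q ^ b = 1 → (z ^ p ^ a = 1 ∨ z ^ q ^ b = 1) →
      Finite (Subgroup.closure {x, y, z}) ∧ Nat.card (Subgroup.closure {x, y, z}) ≤ N) :
    ∀ S : Set G, S.Finite → Finite (Subgroup.closure S) :=
  fun S hS => Pool.Agent.H795R4.BU.final_u p q a b hp hq hpq hpa hqb G hG N h S hS

end Pool.Agent.Results.MP_544bd1_al.CoprimeTriples
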