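import Mathlib
import Pool.Agent.H918R3.BB.Uni

/-!
# Three generators of prime power order decide local finiteness for the exponents `p ^ a * q ^ b`

Proof in outline.  Let `NR A` be generated by the commutators of elements of coprime orders of `A`
and `DD A m` its iteration (the lower Fitting series of a finite group).  New: in a finite group of
exponent `p ^ α q ^ β` the condition `DD = ⊥` at level `m` is detected on the subgroups generated by
one `p`-element and one `q`-element (`Pool.Agent.H918R3.BB.two1`).  In a minimal counterexample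
`V S` (`V` the unique minimal normal subgroup, an `r`-group) a pair `(a, x)` of `S` is changed to
`(a, x v)` or `(a v, x)`, `v ∈ V`, only in the entry which is an `r`-element; counting complements
shows that the other entry acts trivially on `V / C_V(D)`, `D = DD ⟨a, x⟩ m`, so that `⟨a, x⟩`
induces a cyclic `r`-group there and the `r'`-group `D` acts trivially.  The rest is an induction on
the height with the normal subgroups generated by the `r`-elements `e` such that `⟨e, y⟩` is an
`r`-group for all `r`-elements `y`, as in the library `Pool.Agent.H32BU` of an earlier result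
(`ThreeGenerators`), whose lemmas are used.
-/

set_option autoImplicit false

namespace Pool.Agent.Results.MP_544bd1_al.PrimePowerGenerators

universe u

/-- `n ∈ 𝓛`: every group satisfying `x ^ n = 1` is locally finite. -/
def InL (n : ℕ) : Prop := ∀ (G : Type u) [Group G], (∀ x : G, x ^ n = 1) →
  ∀ S : Set G, S.Finite → Finite (Subgroup.closure S)

/-- The largest group of exponent dividing `n` generated by elements `x₀, x₁, x₂` with
`x₀ ^ r = x₁ ^ s = x₂ ^ t = 1`: the quotient of the free Burnside group `B_{3,n}` by the normal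
closure of `x₀ ^ r, x₁ ^ s, x₂ ^ t`. -/
abbrev P (n r s t : ℕ) : Type :=
  FreeGroup (Fin 3) ⧸ Subgroup.normalClosure
    ((Set.range fun w : FreeGroup (Fin 3) => w ^ n) ∪
      {FreeGroup.of 0 ^ r, FreeGroup.of 1 ^ s, FreeGroup.of 2 ^ t})

/-- All subgroups `⟨a, x, y⟩` with `a ^ r = x ^ s = 1` and `y ^ r = 1` or `y ^ s = 1` are finite, and
the orders of the subgroups `⟨a, x⟩` with `a ^ r = x ^ s = 1` are bounded. -/
def Small (r s : ℕ) (G : Type u) [Group G] : Prop :=
  (∀ a x y : G, a ^ r = 1 → x ^ s = 1 → (y ^ r = 1 ∨ y ^ s = 1) →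
    Finite (Subgroup.closure {a, x, y})) ∧
  ∃ N : ℕ, ∀ a x : G, a ^ r = 1 → x ^ s = 1 → Nat.card (Subgroup.closure {a, x}) ≤ N

/-- (1) For distinct primes `p, q` the number `n = p ^ α q ^ β` is in `𝓛` if and only if `p ^ α` and
`q ^ β` are and the two groups `P n (p ^ α) (q ^ β) (p ^ α)` and `P n (p ^ α) (q ^ β) (q ^ β)` are
finite. (2) `12 ∈ 𝓛` if and only if the quotients `P 12 4 3 4` and `P 12 4 3 3` of `B_{3,12}` are
finite. (3) If `p ^ α` and `q ^ β` are in `𝓛`, every group of exponent dividing `p ^ α q ^ β` with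
the property `Small (p ^ α) (q ^ β)` is locally finite. (4) Every group of exponent dividing `12`
with the property `Small 4 3` is locally finite. -/
theorem result :
    (∀ p q α β : ℕ, p.Prime → q.Prime → p ≠ q →
      (InL.{u} (p ^ α * q ^ β) ↔ InL.{u} (p ^ α) ∧ InL.{u} (q ^ β) ∧
        Finite (P (p ^ α * q ^ β) (p ^ α) (q ^ β) (p ^ α)) ∧
        Finite (P (p ^ α * q ^ β) (p ^ α) (q ^ β) (q ^ β)))) ∧
    (InL.{u} 12 ↔ Finite (P 12 4 3 4) ∧ Finite (P 12 4 3 3)) ∧
    (∀ p q α β : ℕ, p.Prime → q.Prime → p ≠ q → InL.{u} (p ^ α) → InL.{u} (q ^ β) →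
      ∀ (G : Type u) [Group G], (∀ x : G, x ^ (p ^ α * q ^ β) = 1) →
        Small (p ^ α) (q ^ β) G → ∀ S : Set G, S.Finite → Finite (Subgroup.closure S)) ∧
    (∀ (G : Type u) [Group G], (∀ x : G, x ^ 12 = 1) → Small 4 3 G →
      ∀ S : Set G, S.Finite → Finite (Subgroup.closure S)) := by
  refine ⟨fun p q α β hp hq hpq => Pool.Agent.H918R3.BB.iff_u p q α β hp hq hpq,
    Pool.Agent.H918R3.BB.twelve, fun p q α β hp hq hpq h1 h2 G _ hG hS S hSf =>
      Pool.Agent.H918R3.BB.group_level_u p q α β hp hq hpq h1 h2 G hG hS.1 hS.2 S hSf,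
    fun G _ hG hS S hSf => ?_⟩
  have h4 : InL.{u} 4 := (Pool.Agent.H32BU.inL_iff Pool.Agent.H32BU.x_LFD 4).2
    Pool.Agent.H32BU.x_L34.2
  have h3 : InL.{u} 3 := (Pool.Agent.H32BU.inL_iff Pool.Agent.H32BU.x_LFD 3).2
    Pool.Agent.H32BU.x_L34.1
  exact Pool.Agent.H918R3.BB.group_level_u 2 3 2 1 Nat.prime_two Nat.prime_three (by norm_num)
    h4 h3 G hG hS.1 hS.2 S hSf

end Pool.Agent.Results.MP_544bd1_al.PrimePowerGenerators
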